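import Pool.Agent.Q203.AsymptoticLimit

/-!
# No injective compact positive operator is an `L`-asymptotic limit
-/

set_option autoImplicit false

namespace Pool.Agent.Results.MP_f651fd_an.NoCompact

open Filter Topology Pool.Agent.Q203.AsymptoticLimit
open scoped BoundedContinuousFunction InnerProductSpace

variable {H : Type*} [NormedAddCommGroup H] [InnerProductSpace ℂ H] [CompleteSpace H]

theorem quad_pos (A : H →L[ℂ] H) (hA : A.IsPositive) (hinj : Function.Injective A) :
    ∀ x, x ≠ 0 → 0 < (inner ℂ x (A x)).re := by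
  set q : H → ℝ := fun x => (inner ℂ x (A x)).re with hq
  have hqc : Continuous q := Complex.continuous_re.comp (continuous_id.inner A.continuous)
  have hqnn : ∀ x, 0 ≤ q x := fun x => hA.re_inner_nonneg_right x
  intro x hx
  have hqx : 0 < q x := by
    refine lt_of_le_of_ne (hqnn x) (fun h0 => hx ?_)
    -- positivity and vanishing of the form imply `A x = 0`
    apply hinj
    rw [map_zero]
    have hre : ∀ (s : ℝ) (y : H), 0 ≤ 2 * s * (inner ℂ (A x) y).re + s ^ 2 * q y := by
      intro s y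
      have h1 := hqnn (x + (s : ℂ) • y)
      have h2 : q (x + (s : ℂ) • y) = q x + 2 * s * (inner ℂ (A x) y).re + s ^ 2 * q y := by
        simp only [hq, map_add, map_smul, inner_add_left, inner_add_right, inner_smul_left,
          inner_smul_right, Complex.add_re, Complex.conj_ofReal, Complex.re_ofReal_mul]
        have h3 : inner ℂ x (A y) = inner ℂ (A x) y := by
          have := hA.isSelfAdjoint.adjoint_eq
          conv_rhs => rw [← this]
          rw [ContinuousLinearMap.adjoint_inner_left]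
        have h4 : (inner ℂ y (A x)).re = (inner ℂ (A x) y).re := by
          rw [← inner_conj_symm, Complex.conj_re]
        rw [h3, h4]
        ring
      rw [h2, ← h0] at h1
      linarith
    have h5 : (inner ℂ (A x) (A x)).re ≤ 0 := by
      by_contra hcon
      push Not at hcon
      set a := (inner ℂ (A x) (A x)).re with ha
      have hb := hqnn (A x)
      have h6 := hre (-(a / (q (A x) + 1))) (A x)
      rw [← ha] at h6
      have h7 : 0 < a / (q (A x) + 1) := by positivity
      have h8 : (a / (q (A x) + 1)) * q (A x) ≤ a := by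
        rw [div_mul_eq_mul_div, div_le_iff₀ (by positivity)]
        nlinarith
      nlinarith
    rw [inner_self_real, Complex.ofReal_re] at h5
    have h9 : ‖A x‖ ^ 2 ≤ 0 := h5
    have h10 : ‖A x‖ = 0 := by nlinarith [norm_nonneg (A x), sq_nonneg ‖A x‖]
    exact norm_eq_zero.mp h10
  exact hqx

/-- On the image of a finite-dimensional space under a high power of `T` the operator `A` is
bounded below by a constant which depends only on the power bound. -/
theorem bounded_below (L : BanachLimit) (T A : H →L[ℂ] H) (M : ℝ) (hM1 : 1 ≤ M)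
    (hM : ∀ n : ℕ, ‖T ^ n‖ ≤ M) (hA : IsAsymptoticLimit L T A)
    (hinj : Function.Injective A) (F : Submodule ℂ H) [FiniteDimensional ℂ F] :
    ∃ n : ℕ, ∀ x ∈ F, ‖(T ^ n) x‖ ^ 2 ≤ 2 * M ^ 2 * (inner ℂ x (A x)).re := by
  set q : H → ℝ := fun x => (inner ℂ x (A x)).re with hq
  have hqc : Continuous q := Complex.continuous_re.comp (continuous_id.inner A.continuous)
  have hqnn : ∀ x, 0 ≤ q x := fun x => hA.1.re_inner_nonneg_right x
  have hqpos : ∀ x, x ≠ 0 → 0 < q x := quad_pos A hA.1 hinj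
  -- a single vector
  have hone : ∀ x, x ≠ 0 → ∃ m : ℕ, ‖(T ^ m) x‖ ^ 2 < 2 * q x := by
    intro x hx
    by_contra hcon
    push Not at hcon
    have h1 : 2 * q x ≤ L.real (normSeq T M hM x) :=
      le_real_of_le L _ _ (fun n => hcon n)
    rw [← quad_eq hA hM x] at h1
    have := hqpos x hx
    simp only [hq] at h1 this
    linarith
  have hmono : ∀ m n : ℕ, m ≤ n → ∀ x, ‖(T ^ n) x‖ ≤ M * ‖(T ^ m) x‖ := by
    intro m n hmn x
    obtain ⟨k, rfl⟩ := Nat.exists_eq_add_of_le hmn
    rw [add_comm, pow_add]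
    exact norm_pow_le hM k ((T ^ m) x)
  -- compactness of the sphere
  let S : Set H := {x | x ∈ F ∧ ‖x‖ = 1}
  have hS : IsCompact S := by
    have h1 : IsCompact (Metric.sphere (0 : F) 1) := isCompact_sphere 0 1
    have h2 : S = F.subtypeL '' Metric.sphere (0 : F) 1 := by
      ext x
      constructor
      · rintro ⟨hx, hn⟩
        exact ⟨⟨x, hx⟩, by simpa using hn, rfl⟩
      · rintro ⟨y, hy, rfl⟩
        exact ⟨y.2, by simpa using hy⟩
    rw [h2]
    exact h1.image F.subtypeL.continuous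
  have hUo : ∀ m : ℕ, IsOpen {x : H | ‖(T ^ m) x‖ ^ 2 < 2 * q x} := fun m =>
    isOpen_lt (by fun_prop) (by fun_prop)
  obtain ⟨I, hI⟩ := hS.elim_finite_subcover (fun m : ℕ => {x : H | ‖(T ^ m) x‖ ^ 2 < 2 * q x}) hUo
    (by
      intro x hx
      have hx0 : x ≠ 0 := by
        rintro rfl
        have := hx.2
        simp at this
      obtain ⟨m, hm⟩ := hone x hx0
      exact Set.mem_iUnion.mpr ⟨m, hm⟩)
  refine ⟨I.sup id, fun x hx => ?_⟩
  have hunit : ∀ y ∈ S, ‖(T ^ (I.sup id)) y‖ ^ 2 ≤ 2 * M ^ 2 * q y := by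
    intro y hy
    have h1 := hI hy
    simp only [Set.mem_iUnion] at h1
    obtain ⟨m, hmI, hm⟩ := h1
    have hm' : ‖(T ^ m) y‖ ^ 2 < 2 * q y := hm
    have h2 := hmono m (I.sup id) (Finset.le_sup (f := id) hmI) y
    calc ‖(T ^ (I.sup id)) y‖ ^ 2 ≤ (M * ‖(T ^ m) y‖) ^ 2 := by gcongr
      _ = M ^ 2 * ‖(T ^ m) y‖ ^ 2 := by ring
      _ ≤ M ^ 2 * (2 * q y) := by gcongr
      _ = 2 * M ^ 2 * q y := by ring
  by_cases hx0 : x = 0
  · subst hx0
    simp
  have hn : 0 < ‖x‖ := norm_pos_iff.mpr hx0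
  have hy : ((‖x‖⁻¹ : ℝ) : ℂ) • x ∈ S := by
    refine ⟨F.smul_mem _ hx, ?_⟩
    rw [norm_smul, Complex.norm_real, norm_inv, norm_norm, inv_mul_cancel₀ hn.ne']
  have h3 := hunit _ hy
  have h4 : q (((‖x‖⁻¹ : ℝ) : ℂ) • x) = (‖x‖⁻¹) ^ 2 * q x := by
    simp only [hq, map_smul, inner_smul_left, inner_smul_right, Complex.conj_ofReal,
      Complex.re_ofReal_mul]
    ring
  rw [h4, map_smul, norm_smul, Complex.norm_real, mul_pow, norm_inv, norm_norm] at h3
  have h5 : 0 < (‖x‖⁻¹) ^ 2 := by positivity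
  have h6 : (‖x‖⁻¹) ^ 2 * ‖(T ^ (I.sup id)) x‖ ^ 2 ≤ (‖x‖⁻¹) ^ 2 * (2 * M ^ 2 * q x) := by
    calc _ ≤ 2 * M ^ 2 * ((‖x‖⁻¹) ^ 2 * q x) := h3
      _ = _ := by ring
  exact le_of_mul_le_mul_left h6 h5

/-- On an infinite-dimensional complex Hilbert space no compact injective positive operator is the
`L`-asymptotic limit of a power bounded operator. -/
theorem result (H : Type*) [NormedAddCommGroup H] [InnerProductSpace ℂ H] [CompleteSpace H]
    (hdim : ¬ FiniteDimensional ℂ H) (L : BanachLimit) (T A : H →L[ℂ] H)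
    (hT : PowerBounded T) (hA : IsAsymptoticLimit L T A) (hinj : Function.Injective A) :
    ¬ IsCompactOperator A := by
  intro hcomp
  obtain ⟨M₀, hM₀⟩ := hT
  set M := max M₀ 1 with hMdef
  have hM : ∀ n : ℕ, ‖T ^ n‖ ≤ M := fun n => le_trans (hM₀ n) (le_max_left _ _)
  have hM1 : 1 ≤ M := le_max_right _ _
  have hMpos : 0 < M := by linarith
  set δ : ℝ := 1 / (2 * M ^ 2) with hδ
  have hδpos : 0 < δ := by positivity
  -- a finite net of the image of the ball
  have hc : IsCompact (closure (A '' Metric.closedBall 0 1)) :=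
    hcomp.isCompact_closure_image_closedBall 1
  obtain ⟨U, hUf, hU⟩ := Metric.totallyBounded_iff.mp hc.totallyBounded (δ / 2) (by positivity)
  set N := hUf.toFinset.card with hN
  -- `T` is injective
  have hTinj : Function.Injective T := by
    rw [injective_iff_map_eq_zero]
    intro x hx
    by_contra hx0
    have h1 := quad_T hA hM x
    rw [hx, map_zero, inner_zero_left] at h1
    have h2 := quad_pos A hA.1 hinj x hx0
    rw [← h1] at h2
    simp at h2
  have hTn : ∀ n : ℕ, Function.Injective (T ^ n) := by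
    intro n
    induction n with
    | zero => intro x y h; simpa using h
    | succ n ih =>
      rw [pow_succ']
      exact hTinj.comp ih
  -- a subspace of dimension `N + 1`
  obtain ⟨f, hf⟩ := exists_orthonormal_seq hdim
  let F : Submodule ℂ H := Submodule.span ℂ (Set.range (fun i : Fin (N + 1) => f i))
  have hfi : LinearIndependent ℂ (fun i : Fin (N + 1) => f i) :=
    (hf.comp (fun i : Fin (N + 1) => (i : ℕ)) Fin.val_injective).linearIndependent
  have hFd : Module.finrank ℂ F = N + 1 := by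
    rw [finrank_span_eq_card hfi, Fintype.card_fin]
  have hFfin : FiniteDimensional ℂ F := FiniteDimensional.span_of_finite ℂ (Set.finite_range _)
  obtain ⟨n, hn⟩ := bounded_below L T A M hM1 hM hA hinj F
  let G : Submodule ℂ H := F.map ((T ^ n : H →L[ℂ] H) : H →ₗ[ℂ] H)
  have hGd : Module.finrank ℂ G = N + 1 := by
    rw [← hFd]
    exact (Submodule.equivMapOfInjective ((T ^ n : H →L[ℂ] H) : H →ₗ[ℂ] H) (hTn n)
      F).finrank_eq.symm
  have hGfin : FiniteDimensional ℂ G := inferInstance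
  let b := stdOrthonormalBasis ℂ G
  let y : Fin (N + 1) → H := fun i => (b (Fin.cast hGd.symm i) : H)
  have hy : ∀ i j, i ≠ j → ‖y i - y j‖ ^ 2 = 2 := by
    intro i j hij
    have h1 : ‖y i - y j‖ ^ 2 = ‖b (Fin.cast hGd.symm i) - b (Fin.cast hGd.symm j)‖ ^ 2 := rfl
    rw [h1, @norm_sub_sq ℂ, b.orthonormal.1, b.orthonormal.1, b.orthonormal.2 (by
      intro h
      apply hij
      exact Fin.cast_injective _ h)]
    simp
    norm_num
  have hbelow : ∀ z ∈ G, δ * ‖z‖ ≤ ‖A z‖ := by
    rintro _ ⟨x, hx, rfl⟩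
    have h1 := hn x hx
    rw [← quad_pow hA hM n x] at h1
    have h2 : (inner ℂ ((T ^ n) x) (A ((T ^ n) x))).re ≤ ‖(T ^ n) x‖ * ‖A ((T ^ n) x)‖ :=
      le_trans (Complex.re_le_norm _) (norm_inner_le_norm _ _)
    set z := (T ^ n) x with hz
    show δ * ‖z‖ ≤ ‖A z‖
    by_cases hz0 : ‖z‖ = 0
    · rw [hz0, mul_zero]
      exact norm_nonneg _
    · have hzp : 0 < ‖z‖ := lt_of_le_of_ne (norm_nonneg _) (Ne.symm hz0)
      have h3 : ‖z‖ * ‖z‖ ≤ ‖z‖ * (2 * M ^ 2 * ‖A z‖) := by
        calc ‖z‖ * ‖z‖ = ‖z‖ ^ 2 := by ring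
          _ ≤ 2 * M ^ 2 * (inner ℂ z (A z)).re := h1
          _ ≤ 2 * M ^ 2 * (‖z‖ * ‖A z‖) := by gcongr
          _ = _ := by ring
      have h4 := le_of_mul_le_mul_left h3 hzp
      rw [hδ, one_div_mul_eq_div, div_le_iff₀ (by positivity)]
      linarith
  -- pigeonhole
  have hyG : ∀ i, y i ∈ G := fun i => (b (Fin.cast hGd.symm i)).2
  have hchoose : ∀ i, ∃ u : {u // u ∈ hUf.toFinset}, ‖A (y i) - u‖ < δ / 2 := by
    intro i
    have h1 : A (y i) ∈ ⋃ u ∈ U, Metric.ball u (δ / 2) := by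
      apply hU
      apply subset_closure
      refine ⟨y i, ?_, rfl⟩
      rw [mem_closedBall_zero_iff]
      exact (b.orthonormal.1 (Fin.cast hGd.symm i)).le
    simp only [Set.mem_iUnion, Metric.mem_ball, dist_eq_norm] at h1
    obtain ⟨u, hu, hlt⟩ := h1
    exact ⟨⟨u, hUf.mem_toFinset.mpr hu⟩, hlt⟩
  choose u hu using hchoose
  obtain ⟨i, j, hij, huij⟩ := Fintype.exists_ne_map_eq_of_card_lt u (by
    rw [Fintype.card_coe, Fintype.card_fin]
    omega)
  have h1 : ‖A (y i - y j)‖ < δ := by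
    rw [map_sub]
    have e1 : A (y i) - A (y j) = (A (y i) - u i) - (A (y j) - u j) := by
      rw [huij]; abel
    rw [e1]
    have := norm_sub_le (A (y i) - (u i : H)) (A (y j) - (u j : H))
    have := hu i
    have := hu j
    linarith
  have h2 := hbelow (y i - y j) (G.sub_mem (hyG i) (hyG j))
  have h3 : 1 ≤ ‖y i - y j‖ := by
    have := hy i j hij
    nlinarith [norm_nonneg (y i - y j)]
  nlinarith

end Pool.Agent.Results.MP_f651fd_an.NoCompact
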